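import Mathlib

/-!
# Infinite-dimensional Wishart processes: definitions

`IsSemigroup`, `Gen` : strongly continuous semigroup and its generator.
`Solution` : martingale-problem form of the Wishart equation
`dX = (α Q + X A + A* X) dt + √X dW √Q + √Q dW* √X`.
The other definitions are auxiliary.
-/

open MeasureTheory ProbabilityTheory Filter Topology Set
open scoped NNReal InnerProductSpace Matrix

namespace Pool.Agent.Q78.WI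

universe u v

section basic

variable {H : Type u} [NormedAddCommGroup H] [InnerProductSpace ℝ H]

/-- `T` (restricted to `t ≥ 0`) is a strongly continuous semigroup of bounded operators. -/
structure IsSemigroup (T : ℝ → H →L[ℝ] H) : Prop where
  zero : T 0 = ContinuousLinearMap.id ℝ H
  add : ∀ s t : ℝ, 0 ≤ s → 0 ≤ t → T (s + t) = (T s).comp (T t)
  cont : ∀ g : H, ContinuousOn (fun t => T t g) (Ici 0)

/-- `g` is in the domain of the generator `A` of `T` and `A g = y`. -/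
def Gen (T : ℝ → H →L[ℝ] H) (g y : H) : Prop :=
  Tendsto (fun t : ℝ => t⁻¹ • (T t g - g)) (𝓝[>] 0) (𝓝 y)

/-- `∑ₖ ⟨S hₖ, hₖ⟩`. -/
noncomputable def quad (S : H →L[ℝ] H) {m : ℕ} (h : Fin m → H) : ℝ :=
  ∑ k, ⟪S (h k), h k⟫_ℝ

/-- Drift of `exp (-∑ₖ ⟨X hₖ, hₖ⟩)` at `X = S`, for `hₖ` in the domain of the generator `A` and
`yₖ = A hₖ`. -/
noncomputable def drift (α : ℝ) (Q S : H →L[ℝ] H) {m : ℕ} (h y : Fin m → H) : ℝ :=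
  Real.exp (-quad S h) *
    (-(α * ∑ k, ⟪Q (h k), h k⟫_ℝ) - 2 * ∑ k, ⟪S (y k), h k⟫_ℝ
      + 2 * ∑ k, ∑ l, ⟪S (h k), h l⟫_ℝ * ⟪Q (h k), h l⟫_ℝ)

/-- `X` solves the martingale problem of the Wishart equation with parameters `α`, `Q` and the
generator of `T`: positive operators, norm continuous paths, adapted, and there are stopping times
`τₙ → ∞` with `‖X s‖ ≤ n` for `s ≤ τₙ` where `τₙ > 0`, such that for all finite families `h` in the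
domain of the generator (`y` its image) the stopped process
`exp (-∑ ⟨X_t hₖ, hₖ⟩) - ∫_0^t drift` is a martingale. -/
structure Solution {Ω : Type v} [mΩ : MeasurableSpace Ω] (P : Measure Ω) (ℱ : Filtration ℝ≥0 mΩ)
    (T : ℝ → H →L[ℝ] H) (Q : H →L[ℝ] H) (α : ℝ) (X : ℝ≥0 → Ω → H →L[ℝ] H) : Prop where
  pos : ∀ t ω, (X t ω).IsPositive
  cont : ∀ ω, Continuous fun t => X t ω
  adapted : ∀ t (g h : H), Measurable[ℱ t] fun ω => ⟪X t ω g, h⟫_ℝ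
  mart : ∃ τ : ℕ → Ω → ℝ≥0,
    (∀ n t, MeasurableSet[ℱ t] {ω | τ n ω ≤ t}) ∧
    (∀ᵐ ω ∂P, Tendsto (fun n => τ n ω) atTop atTop) ∧
    (∀ n ω, 0 < τ n ω → ∀ s ≤ τ n ω, ‖X s ω‖ ≤ n) ∧
    ∀ (n m : ℕ) (h y : Fin m → H), (∀ k, Gen T (h k) (y k)) →
      Martingale (fun (t : ℝ≥0) ω => Real.exp (-quad (X (min t (τ n ω)) ω) h)
        - ∫ s in (0 : ℝ)..((min t (τ n ω) : ℝ≥0) : ℝ), drift α Q (X s.toNNReal ω) h y) ℱ P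

/-- `∑ᵢⱼ ψᵢⱼ ⟨S gᵢ, gⱼ⟩`. -/
noncomputable def tq {d : ℕ} (ψ : Matrix (Fin d) (Fin d) ℝ) (S : H →L[ℝ] H) (g : Fin d → H) : ℝ :=
  ∑ i, ∑ j, ψ i j * ⟪S (g i), g j⟫_ℝ

/-- Drift of `exp (-∑ᵢⱼ ψᵢⱼ ⟨X gᵢ, gⱼ⟩)` at `X = S`. -/
noncomputable def dr {d : ℕ} (α : ℝ) (Q S : H →L[ℝ] H) (ψ : Matrix (Fin d) (Fin d) ℝ)
    (g y : Fin d → H) : ℝ :=
  Real.exp (-tq ψ S g) *
    (-(α * tq ψ Q g) - 2 * ∑ i, ∑ j, ψ i j * ⟪S (y i), g j⟫_ℝ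
      + 2 * ∑ i, ∑ j, ∑ k, ∑ l, ψ i j * ψ k l * (⟪S (g i), g k⟫_ℝ * ⟪Q (g j), g l⟫_ℝ))

/-- The matrix `2 ∫_0^r ⟨Q T_v gᵢ, T_v gⱼ⟩ dv`. -/
noncomputable def gram (T : ℝ → H →L[ℝ] H) (Q : H →L[ℝ] H) {d : ℕ} (g : Fin d → H) (r : ℝ) :
    Matrix (Fin d) (Fin d) ℝ :=
  Matrix.of fun i j => 2 * ∫ v in (0 : ℝ)..r, ⟪Q (T v (g i)), T v (g j)⟫_ℝ

/-- `ψ(s) = (u⁻¹ + gram (1 - s))⁻¹`. -/
noncomputable def psi (T : ℝ → H →L[ℝ] H) (Q : H →L[ℝ] H) {d : ℕ} (g : Fin d → H)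
    (u : Matrix (Fin d) (Fin d) ℝ) (s : ℝ) : Matrix (Fin d) (Fin d) ℝ :=
  (u⁻¹ + gram T Q g (1 - s))⁻¹

/-- `det (u⁻¹ + gram (1 - s)) ^ (-α/2)`. -/
noncomputable def fac (α : ℝ) (T : ℝ → H →L[ℝ] H) (Q : H →L[ℝ] H) {d : ℕ} (g : Fin d → H)
    (u : Matrix (Fin d) (Fin d) ℝ) (s : ℝ) : ℝ :=
  (u⁻¹ + gram T Q g (1 - s)).det ^ (-(α / 2))

/-- `a(s, S) = fac(s) exp (-∑ ψ(s)ᵢⱼ ⟨S T_{1-s} gᵢ, T_{1-s} gⱼ⟩)`. -/
noncomputable def av (α : ℝ) (T : ℝ → H →L[ℝ] H) (Q : H →L[ℝ] H) {d : ℕ} (g : Fin d → H)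
    (u : Matrix (Fin d) (Fin d) ℝ) (S : H →L[ℝ] H) (s : ℝ) : ℝ :=
  fac α T Q g u s * Real.exp (-tq (psi T Q g u s) S (fun i => T (1 - s) (g i)))

/-- `c(s, S) = fac(s) dr(S, ψ(s), T_{1-s} g, T_{1-s} y)`. -/
noncomputable def cv (α : ℝ) (T : ℝ → H →L[ℝ] H) (Q : H →L[ℝ] H) {d : ℕ} (g y : Fin d → H)
    (u : Matrix (Fin d) (Fin d) ℝ) (S : H →L[ℝ] H) (s : ℝ) : ℝ :=
  fac α T Q g u s *
    dr α Q S (psi T Q g u s) (fun i => T (1 - s) (g i)) (fun i => T (1 - s) (y i))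

end basic

/-- `1_{s < τ} ∫_s^{min t τ} (c(s,r) - c(r, min t τ)) dr`. -/
noncomputable def J (τ : ℝ) (c : ℝ → ℝ → ℝ) (s t : ℝ) : ℝ :=
  if s < τ then ∫ r in s..(min t τ), (c s r - c r (min t τ)) else 0

/-- Hypotheses of the abstract lemma on time-dependent martingale problems. -/
structure TDData {Ω : Type v} [mΩ : MeasurableSpace Ω] (P : Measure Ω) (ℱ : Filtration ℝ≥0 mΩ)
    (τ : Ω → ℝ≥0) (R : ℝ≥0) (B C : ℝ) (a c : ℝ → ℝ → Ω → ℝ) : Prop where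
  stop : ∀ t, MeasurableSet[ℱ t] {ω | τ ω ≤ t}
  deriv : ∀ ω, ∀ t ∈ Icc (0 : ℝ) R, ∀ s ∈ Icc (0 : ℝ) R,
    HasDerivWithinAt (fun s => a s t ω) (-(c s t ω)) (Icc (0 : ℝ) R) s
  cont : ∀ ω, ContinuousOn (fun p : ℝ × ℝ => c p.1 p.2 ω) (Icc (0 : ℝ) R ×ˢ Icc (0 : ℝ) R)
  bdda : ∀ ω, ∀ s ∈ Icc (0 : ℝ) R, ∀ t ∈ Icc (0 : ℝ) R, |a s t ω| ≤ B
  C0 : 0 ≤ C
  bddc : ∀ ω, 0 < τ ω → ∀ s ∈ Icc (0 : ℝ) R, ∀ t ∈ Icc (0 : ℝ) R, t ≤ τ ω → |c s t ω| ≤ C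
  meas : ∀ t : ℝ≥0, t ≤ R →
    Measurable fun ω => a ((min t (τ ω) : ℝ≥0) : ℝ) ((min t (τ ω) : ℝ≥0) : ℝ) ω
  mart : ∀ s : ℝ≥0, s ≤ R → Martingale (fun (t : ℝ≥0) ω =>
    a s ((min t (τ ω) : ℝ≥0) : ℝ) ω - ∫ r in (0 : ℝ)..((min t (τ ω) : ℝ≥0) : ℝ), c s r ω) ℱ P

/-- Two random positive semidefinite matrices `M`, `N` related by the Laplace transform identity of
a (noncentral) Wishart distribution with shape parameter `α`. -/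
structure WIdent {Ω : Type v} [MeasurableSpace Ω] (P : Measure Ω) {d : ℕ} (α : ℝ)
    (M N : Ω → Matrix (Fin d) (Fin d) ℝ) : Prop where
  measM : ∀ i j, Measurable fun ω => M ω i j
  measN : ∀ i j, Measurable fun ω => N ω i j
  posM : ∀ ω, (M ω).PosSemidef
  posN : ∀ ω, (N ω).PosSemidef
  ident : ∀ u : Matrix (Fin d) (Fin d) ℝ, u.PosDef →
    ∫ ω, Real.exp (-(u * M ω).trace) ∂P =
      (1 + u).det ^ (-(α / 2)) * ∫ ω, Real.exp (-((u⁻¹ + 1)⁻¹ * N ω).trace) ∂P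

/-- The weight `n^(dα/2) exp (-n tr M)`. -/
noncomputable def wt {d : ℕ} (α : ℝ) (M : Matrix (Fin d) (Fin d) ℝ) (n : ℕ) : ℝ :=
  (n : ℝ) ^ ((d : ℝ) * α / 2) * Real.exp (-((n : ℝ) * M.trace))

/-- `n tr (h M)`. -/
noncomputable def Yn {d : ℕ} (h M : Matrix (Fin d) (Fin d) ℝ) (n : ℕ) : ℝ :=
  (n : ℝ) * (h * M).trace

/-- `(Eᵢⱼ + Eⱼᵢ)/2`. -/
noncomputable def hij {d : ℕ} (i j : Fin d) : Matrix (Fin d) (Fin d) ℝ :=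
  (1 / 2 : ℝ) • (Matrix.single i j 1 + Matrix.single j i 1)

/-- `F_n = (tr W - s)^2 + tr W / 4 - tr W^2 + tr W^3` for `W = n M / d`. -/
noncomputable def Fn {d : ℕ} (s : ℝ) (M : Matrix (Fin d) (Fin d) ℝ) (n : ℕ) : ℝ :=
  ((n : ℝ) / d * M.trace - s) ^ 2 + (n : ℝ) / d * M.trace / 4
    - ((n : ℝ) / d) ^ 2 * (M * M).trace + ((n : ℝ) / d) ^ 3 * (M * M * M).trace

end Pool.Agent.Q78.WI
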