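import Pool.Agent.Q78.WI.Stm

/-!
# Assembly of the theorem from the lemmas
-/

open MeasureTheory ProbabilityTheory Filter Topology Set
open scoped NNReal InnerProductSpace Matrix

namespace Pool.Agent.Q78.WI

universe u v

theorem f (h2 : S_A2.{u}) (h3 : S_A3.{u}) (h4 : S_A4.{u}) (hD : S_D.{u, v}) (h8 : S_E8.{v}) :
    S_F.{u, v} := by
  intro H _ _ _ T hT Q hQ hQi hH α hα Ω _ P _ ℱ X hX
  obtain ⟨d, hd⟩ := h8 α hα
  obtain ⟨g, y, hgy, hli⟩ := h2 H T hT hH d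
  obtain ⟨g', y', hgy', hgr⟩ := h4 H T hT Q d g y hgy ((h3 H T hT Q hQ).2 hQi d g hli 1 one_pos)
  exact hd d le_rfl Ω P _ _ (hD H T hT Q hQ α Ω P ℱ X hX d g' y' hgy' hgr)

end Pool.Agent.Q78.WI
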