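import Pool.Agent.Q78.WI.Def

/-!
# Infinite-dimensional Wishart processes: statements of the lemmas

Goal: for non-integer `α` there is no solution of the Wishart equation on an infinite-dimensional
Hilbert space when `Q` is positive and injective, whatever the generator is.

Plan: (TD) abstract lemma on time-dependent functions; (C) apply it to
`a(s, t) = fac(s) exp (-tr ψ(s) ⟨X_t T_{1-s} g, T_{1-s} g⟩)` with a Riccati solution `ψ`; this gives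
the Wishart Laplace transform identity (D) for the random Gram matrix of `X_1`; (E) for non-integer
`α` this identity is impossible in large dimension (moments of `n M / d` as `n → ∞`).
-/

open MeasureTheory ProbabilityTheory Filter Topology Set
open scoped NNReal InnerProductSpace Matrix

namespace Pool.Agent.Q78.WI

universe u v

/-! ## Part A: the semigroup -/

/-- A1. The domain of the generator is dense.
Proof: `g' = δ⁻¹ ∫_0^δ T_s g ds` and `y' = δ⁻¹ (T_δ g - g)`. One has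
`h⁻¹ (T_h g' - g') = δ⁻¹ h⁻¹ (∫_δ^{δ+h} T_s g ds - ∫_0^h T_s g ds)`, which tends to `y'`, and
`g' → g` as `δ → 0` by continuity at `0`. -/
def S_A1 : Prop := ∀ (H : Type u) [NormedAddCommGroup H] [InnerProductSpace ℝ H] [CompleteSpace H]
  (T : ℝ → H →L[ℝ] H), IsSemigroup T →
    ∀ (g : H) (ε : ℝ), 0 < ε → ∃ g' y', Gen T g' y' ∧ ‖g' - g‖ < ε

/-- A2. Independent vectors in the domain. Proof (with `S_A1`): the domain
`{g | ∃ y, Gen T g y}` is a dense submodule `D`. If `D` were finite-dimensional, it would be closed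
(`Submodule.closed_of_finiteDimensional`), so `D = ⊤`, `H` is finite-dimensional and every `g` is in
`D`, against both alternatives. So `D` is not finite-dimensional and contains `d` independent
vectors for every `d`. -/
def S_A2 : Prop := ∀ (H : Type u) [NormedAddCommGroup H] [InnerProductSpace ℝ H] [CompleteSpace H]
  (T : ℝ → H →L[ℝ] H), IsSemigroup T →
    (¬ FiniteDimensional ℝ H ∨ ∃ g : H, ∀ y, ¬ Gen T g y) → ∀ d : ℕ,
    ∃ g y : Fin d → H, (∀ i, Gen T (g i) (y i)) ∧ LinearIndependent ℝ g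

/-- A3. The Gram matrix is positive semidefinite, and positive definite for independent vectors.
Proof: for `x : Fin d → ℝ` and `z = ∑ xᵢ gᵢ` one has
`∑ xᵢ xⱼ gram i j = 2 ∫_0^r ⟨Q T_v z, T_v z⟩ dv ≥ 0` (the integrand is continuous and `≥ 0`). If this
is `0` and `r > 0`, then the integrand vanishes at `v = 0`: `⟨Q z, z⟩ = 0`, hence `Q z = 0`
(Cauchy-Schwarz for the positive form `⟨Q ·, ·⟩`: `⟨Qz, w⟩² ≤ ⟨Qz, z⟩⟨Qw, w⟩`), `z = 0`, `x = 0`. -/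
def S_A3 : Prop := ∀ (H : Type u) [NormedAddCommGroup H] [InnerProductSpace ℝ H] [CompleteSpace H]
  (T : ℝ → H →L[ℝ] H), IsSemigroup T → ∀ Q : H →L[ℝ] H, Q.IsPositive →
    (∀ (d : ℕ) (g : Fin d → H) (r : ℝ), 0 ≤ r → (gram T Q g r).PosSemidef) ∧
    (Function.Injective Q → ∀ (d : ℕ) (g : Fin d → H), LinearIndependent ℝ g →
      ∀ r : ℝ, 0 < r → (gram T Q g r).PosDef)

/-- A4. Normalization. Proof: `Γ = gram T Q g 1` is positive definite, so `Γ = Bᵀ B` with `B`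
invertible; put `C = (Bᵀ)⁻¹`, `g'ᵢ = ∑ⱼ Cᵢⱼ gⱼ`, `y'ᵢ = ∑ⱼ Cᵢⱼ yⱼ`; then `gram g' = C Γ Cᵀ = 1`
by bilinearity of the integral (the integrands are continuous on `[0, 1]`), and `Gen` is linear. -/
def S_A4 : Prop := ∀ (H : Type u) [NormedAddCommGroup H] [InnerProductSpace ℝ H] [CompleteSpace H]
  (T : ℝ → H →L[ℝ] H), IsSemigroup T → ∀ (Q : H →L[ℝ] H) (d : ℕ) (g y : Fin d → H),
    (∀ i, Gen T (g i) (y i)) → (gram T Q g 1).PosDef →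
    ∃ g' y' : Fin d → H, (∀ i, Gen T (g' i) (y' i)) ∧ gram T Q g' 1 = 1

/-! ## Part B: the martingale problem with a matrix -/

/-- B. Matrix form of the functions and of the drift. Proof: `ψ = Bᵀ B`
(`Matrix.posSemidef_iff_eq_conjTranspose_mul_self` or similar), and expand the bilinear forms:
`quad S h = ∑ₖ ∑ᵢⱼ B k i B k j ⟨S gᵢ, gⱼ⟩`, and
`∑ₖₗ ⟨S hₖ, hₗ⟩ ⟨Q hₖ, hₗ⟩ = ∑ B k i B l p ⟨S gᵢ, gₚ⟩ B k j B l q ⟨Q gⱼ, g_q⟩`. -/
def S_B : Prop := ∀ (H : Type u) [NormedAddCommGroup H] [InnerProductSpace ℝ H]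
  (d : ℕ) (ψ : Matrix (Fin d) (Fin d) ℝ), ψ.PosSemidef → ∃ B : Matrix (Fin d) (Fin d) ℝ,
    ∀ (α : ℝ) (Q S : H →L[ℝ] H) (g y : Fin d → H),
      tq ψ S g = quad S (fun k => ∑ i, B k i • g i) ∧
      dr α Q S ψ g y = drift α Q S (fun k => ∑ i, B k i • g i) (fun k => ∑ i, B k i • y i)

/-! ## Part TD: time-dependent functions -/

/-- TD1. Proof: the fundamental theorem of calculus for `r ↦ a r t` on `[s, t]`:
`a t t - a s t = - ∫_s^t c r t dr`; and `∫_0^t - ∫_0^s = ∫_s^t`; all integrands are continuous. -/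
def S_TD1 : Prop := ∀ (R : ℝ) (a c : ℝ → ℝ → ℝ),
  (∀ t ∈ Icc 0 R, ∀ s ∈ Icc 0 R,
    HasDerivWithinAt (fun s => a s t) (-(c s t)) (Icc 0 R) s) →
  ContinuousOn (fun p : ℝ × ℝ => c p.1 p.2) (Icc 0 R ×ˢ Icc 0 R) →
  ∀ s t, 0 ≤ s → s ≤ t → t ≤ R →
    a t t - a s s = (a s t - ∫ r in (0 : ℝ)..t, c s r) - (a s s - ∫ r in (0 : ℝ)..s, c s r)
      + ∫ r in s..t, (c s r - c r t)

/-- TD2. One step. Proof (with `S_TD1`): put `t' = min t τ`. On `{τ ≤ s}` both `a(t', t')` and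
`a(min s τ, min s τ)` are `a(τ, τ)` and `J = 0`. On `{s < τ}`, `min s τ = s` and `S_TD1` at
`s ≤ t'` says `a(t', t') - a(s, s) = M_s(t) - M_s(s) + J`, `M_s` the martingale of the structure at
`s`. So `J = a(t', t') - a(s ∧ τ, s ∧ τ) - 1_{s < τ} (M_s(t) - M_s(s))` for all `ω`: integrable, and
the last term has integral `0` (`Martingale.setIntegral_eq` on the complement of `{τ ≤ s}`, which
is in `ℱ s`). -/
def S_TD2 : Prop := ∀ (Ω : Type v) [mΩ : MeasurableSpace Ω] (P : Measure Ω) [IsProbabilityMeasure P]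
  (ℱ : Filtration ℝ≥0 mΩ) (τ : Ω → ℝ≥0) (R : ℝ≥0) (B C : ℝ) (a c : ℝ → ℝ → Ω → ℝ),
  TDData P ℱ τ R B C a c → ∀ s t : ℝ≥0, s ≤ t → t ≤ R →
    Integrable (fun ω => J (τ ω) (fun x y => c x y ω) s t) P ∧
    ∫ ω, a ((min t (τ ω) : ℝ≥0) : ℝ) ((min t (τ ω) : ℝ≥0) : ℝ) ω ∂P
      - ∫ ω, a ((min s (τ ω) : ℝ≥0) : ℝ) ((min s (τ ω) : ℝ≥0) : ℝ) ω ∂P
      = ∫ ω, J (τ ω) (fun x y => c x y ω) s t ∂P

/-- TD3. Pathwise limit. Proof: if `s < τ` then `τ > 0`, and for `r ∈ [s, min t τ]` both values of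
`c` are at most `C` in absolute value, so `|J| ≤ 2 C (t - s)`. `c` is uniformly continuous on the
compact square, so for `ε > 0` and `N` large `|c s r - c r (min t τ)| ≤ ε` for
`s ≤ r ≤ min t τ ≤ t = s + R / N`, hence `|J| ≤ ε R / N` and the sum is at most `ε R`. -/
def S_TD3 : Prop := ∀ (R C τ : ℝ) (c : ℝ → ℝ → ℝ), 0 ≤ R → 0 ≤ τ → 0 ≤ C →
  ContinuousOn (fun p : ℝ × ℝ => c p.1 p.2) (Icc 0 R ×ˢ Icc 0 R) →
  (0 < τ → ∀ s ∈ Icc 0 R, ∀ t ∈ Icc 0 R, t ≤ τ → |c s t| ≤ C) →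
  (∀ N : ℕ, 0 < N → ∀ k < N, |J τ c ((k : ℝ) * R / N) (((k : ℝ) + 1) * R / N)| ≤ 2 * C * (R / N)) ∧
  Tendsto (fun N : ℕ => ∑ k ∈ Finset.range N, J τ c ((k : ℝ) * R / N) (((k : ℝ) + 1) * R / N))
    atTop (𝓝 0)

/-- TD4. Proof (with `S_TD2`, `S_TD3`): for every `N ≥ 1` the difference of the two sides is, by
telescoping over `k R / N`, the integral of `∑ₖ J(k R / N, (k+1) R / N)`, which is bounded by
`2 C R` and tends to `0` for every `ω`; dominated convergence. (`min 0 τ = 0`.) -/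
def S_TD4 : Prop := ∀ (Ω : Type v) [mΩ : MeasurableSpace Ω] (P : Measure Ω) [IsProbabilityMeasure P]
  (ℱ : Filtration ℝ≥0 mΩ) (τ : Ω → ℝ≥0) (R : ℝ≥0) (B C : ℝ) (a c : ℝ → ℝ → Ω → ℝ),
  TDData P ℱ τ R B C a c →
    ∫ ω, a ((min R (τ ω) : ℝ≥0) : ℝ) ((min R (τ ω) : ℝ≥0) : ℝ) ω ∂P = ∫ ω, a 0 0 ω ∂P

/-! ## Part C: the functions `av` and `cv` -/

/-- C1. Proof: `t⁻¹ (T_h T_t g - T_t g) = T_t (h⁻¹ (T_h g - g))` as `T_h T_t = T_{h+t} = T_t T_h`;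
so `Gen` for `T_t g`, and `s ↦ T_s g` has right derivative `T_t y` at `t`. The function
`T_t g - g - ∫_0^t T_s y ds` is continuous with right derivative `0`, so it is `0`
(`constant_of_has_deriv_right_zero`); differentiate the integral. -/
def S_C1 : Prop := ∀ (H : Type u) [NormedAddCommGroup H] [InnerProductSpace ℝ H] [CompleteSpace H]
  (T : ℝ → H →L[ℝ] H), IsSemigroup T → ∀ g y : H, Gen T g y →
    (∀ t, 0 ≤ t → Gen T (T t g) (T t y)) ∧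
    (∀ t, 0 ≤ t → HasDerivWithinAt (fun s => T s g) (T t y) (Ici 0) t)

/-- C3. Derivative of the Gram matrix. Proof: fundamental theorem of calculus; the integrand
`v ↦ ⟨Q T_v gᵢ, T_v gⱼ⟩` is continuous on `[0, ∞)`. -/
def S_C3 : Prop := ∀ (H : Type u) [NormedAddCommGroup H] [InnerProductSpace ℝ H] [CompleteSpace H]
  (T : ℝ → H →L[ℝ] H), IsSemigroup T → ∀ (Q : H →L[ℝ] H) (d : ℕ) (g : Fin d → H),
    ∀ s ∈ Icc (0 : ℝ) 1, ∀ i j, HasDerivWithinAt (fun s => gram T Q g (1 - s) i j)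
      (-(2 * ⟪Q (T (1 - s) (g i)), T (1 - s) (g j)⟫_ℝ)) (Icc (0 : ℝ) 1) s

/-- C2. Regularity of `psi` and `fac`. Proof (with `S_A3`, `S_C3`): `gram (1 - s)` is positive
semidefinite and continuous on `[0, 1]`, `u⁻¹` is positive definite, so the sum is positive definite
(so its determinant is positive and its inverse positive semidefinite); the entries of the inverse
are polynomials in the entries divided by the determinant; `rpow` is continuous on positive reals. -/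
def S_C2 : Prop := ∀ (H : Type u) [NormedAddCommGroup H] [InnerProductSpace ℝ H] [CompleteSpace H]
  (T : ℝ → H →L[ℝ] H), IsSemigroup T → ∀ Q : H →L[ℝ] H, Q.IsPositive →
    ∀ (α : ℝ) (d : ℕ) (g : Fin d → H) (u : Matrix (Fin d) (Fin d) ℝ), u.PosDef →
      (∀ s ∈ Icc (0 : ℝ) 1, 0 < (u⁻¹ + gram T Q g (1 - s)).det ∧ (psi T Q g u s).PosSemidef) ∧
      (∀ i j, ContinuousOn (fun s => psi T Q g u s i j) (Icc (0 : ℝ) 1)) ∧
      ContinuousOn (fun s => fac α T Q g u s) (Icc (0 : ℝ) 1) ∧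
      ∀ x : H, ContinuousOn (fun s => T (1 - s) x) (Icc (0 : ℝ) 1)

/-- C4. Derivatives of inverse and determinant. Proof: entrywise differentiability; `det` and
the adjugate are polynomials in the entries, `M⁻¹ = (det M)⁻¹ adj M`, differentiate `M M⁻¹ = 1`.
Jacobi: `d det M = tr (adj M dM)` (for example by multilinearity of the determinant in the rows and
Laplace expansion; Mathlib has `Matrix.derivative_det_one_add_X_smul` and maybe more). One may use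
a local normed algebra structure on matrices for the inverse (`hasFDerivAt_ringInverse`). -/
def S_C4 : Prop := ∀ (d : ℕ) (M : ℝ → Matrix (Fin d) (Fin d) ℝ) (M' : Matrix (Fin d) (Fin d) ℝ)
  (S : Set ℝ) (x : ℝ), (∀ i j, HasDerivWithinAt (fun s => M s i j) (M' i j) S x) →
    0 < (M x).det →
    (∀ i j, HasDerivWithinAt (fun s => (M s)⁻¹ i j) (-((M x)⁻¹ * M' * (M x)⁻¹) i j) S x) ∧
    HasDerivWithinAt (fun s => (M s).det) ((M x).det * ((M x)⁻¹ * M').trace) S x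

/-- C5. The equation `∂ₛ a = -c`. Proof (with `S_C1`, `S_C2`, `S_C3`, `S_C4`): let
`G = T_{1-s} g`, `Y = T_{1-s} y`, `q = (⟨Q Gᵢ, Gⱼ⟩)`, `M = u⁻¹ + gram (1 - s)` (positive definite),
`ψ = M⁻¹`. Then `G' = -Y`, `M' = -2 q`, `ψ' = 2 ψ q ψ`, `fac' = fac α tr (ψ q)`, so
`∂ₛ a = a (-∑ (2 ψ q ψ)ᵢⱼ ⟨S Gᵢ, Gⱼ⟩ + 2 ∑ ψᵢⱼ ⟨S Yᵢ, Gⱼ⟩ + α tr (ψ q))`, using symmetry of `S` and
`ψ`; and `c = a (-α tr (ψ q) - 2 ∑ ψᵢⱼ ⟨S Yᵢ, Gⱼ⟩ + 2 ∑ (ψ q ψ)ᵢₖ ⟨S Gᵢ, Gₖ⟩)`. -/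
def S_C5 : Prop := ∀ (H : Type u) [NormedAddCommGroup H] [InnerProductSpace ℝ H] [CompleteSpace H]
  (T : ℝ → H →L[ℝ] H), IsSemigroup T → ∀ Q : H →L[ℝ] H, Q.IsPositive →
    ∀ (α : ℝ) (d : ℕ) (g y : Fin d → H), (∀ i, Gen T (g i) (y i)) →
    ∀ u : Matrix (Fin d) (Fin d) ℝ, u.PosDef → ∀ S : H →L[ℝ] H, S.IsPositive →
    ∀ s ∈ Icc (0 : ℝ) 1, HasDerivWithinAt (fun s => av α T Q g u S s)
      (-(cv α T Q g y u S s)) (Icc (0 : ℝ) 1) s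

/-- C6. Joint continuity. Proof (with `S_C2`): `psi` (entries), `fac` and `s ↦ T (1 - s) gᵢ`,
`s ↦ T (1 - s) yᵢ` are continuous on `[0, 1]`, `X` is norm continuous, so all inner products are
continuous in `(s, t)`; finite sums and products. -/
def S_C6 : Prop := ∀ (H : Type u) [NormedAddCommGroup H] [InnerProductSpace ℝ H] [CompleteSpace H]
  (T : ℝ → H →L[ℝ] H), IsSemigroup T → ∀ Q : H →L[ℝ] H, Q.IsPositive →
    ∀ (α : ℝ) (d : ℕ) (g y : Fin d → H) (u : Matrix (Fin d) (Fin d) ℝ), u.PosDef →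
    ∀ X : ℝ → H →L[ℝ] H, Continuous X →
      ContinuousOn (fun p : ℝ × ℝ => av α T Q g u (X p.2) p.1) (Icc (0 : ℝ) 1 ×ˢ univ) ∧
      ContinuousOn (fun p : ℝ × ℝ => cv α T Q g y u (X p.2) p.1) (Icc (0 : ℝ) 1 ×ˢ univ)

/-- C7. Bounds. Proof (with `S_C2`): `psi s` is positive semidefinite,
so `tq (psi s) S G ≥ 0` for positive `S` and the exponential is at most `1`; `fac`, the entries of
`psi`, and the norms of `T_{1-s} gᵢ`, `T_{1-s} yᵢ` are continuous on `[0, 1]`, hence bounded; and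
`|⟨S x, z⟩| ≤ ‖S‖ ‖x‖ ‖z‖`. -/
def S_C7 : Prop := ∀ (H : Type u) [NormedAddCommGroup H] [InnerProductSpace ℝ H] [CompleteSpace H]
  (T : ℝ → H →L[ℝ] H), IsSemigroup T → ∀ Q : H →L[ℝ] H, Q.IsPositive →
    ∀ (α : ℝ) (d : ℕ) (g y : Fin d → H) (u : Matrix (Fin d) (Fin d) ℝ), u.PosDef →
      (∃ B : ℝ, ∀ s ∈ Icc (0 : ℝ) 1, ∀ S : H →L[ℝ] H, S.IsPositive → |av α T Q g u S s| ≤ B) ∧
      (∀ K : ℝ, ∃ C : ℝ, 0 ≤ C ∧ ∀ s ∈ Icc (0 : ℝ) 1, ∀ S : H →L[ℝ] H, S.IsPositive → ‖S‖ ≤ K →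
        |cv α T Q g y u S s| ≤ C)

/-- C8. Measurability at a random time. Proof (with `S_C6`): for fixed `(s, t)` the function
`ω ↦ av (X t ω) s` is measurable (finite sums of `⟨X t ω x, z⟩`), and it is continuous in
`(s, t) ∈ [0, 1] × [0, ∞)` for fixed `ω`; so it is jointly measurable
(`measurable_uncurry_of_continuous_of_measurable` after replacing `s` by its projection to
`[0, 1]`), and compose with `ω ↦ (σ ω, σ ω, ω)`. -/
def S_C8 : Prop := ∀ (H : Type u) [NormedAddCommGroup H] [InnerProductSpace ℝ H] [CompleteSpace H]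
  (T : ℝ → H →L[ℝ] H), IsSemigroup T → ∀ Q : H →L[ℝ] H, Q.IsPositive →
    ∀ (α : ℝ) (d : ℕ) (g : Fin d → H) (u : Matrix (Fin d) (Fin d) ℝ), u.PosDef →
    ∀ (Ω : Type v) [MeasurableSpace Ω] (X : ℝ≥0 → Ω → H →L[ℝ] H),
      (∀ ω, Continuous fun t => X t ω) → (∀ t (x z : H), Measurable fun ω => ⟪X t ω x, z⟫_ℝ) →
      ∀ σ : Ω → ℝ≥0, Measurable σ → (∀ ω, σ ω ≤ 1) →
      Measurable fun ω => av α T Q g u (X (σ ω) ω) (σ ω)

/-- C9. The martingales. Proof (with `S_B`, `S_C1`, `S_C2`): `psi s` is positive semidefinite; take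
`B` from `S_B` and `hₖ = ∑ᵢ B k i • T (1 - s) gᵢ`, with images `∑ᵢ B k i • T (1 - s) yᵢ` (`Gen` is
linear); then the process is `fac s` times the one of the hypothesis. -/
def S_C9 : Prop := ∀ (H : Type u) [NormedAddCommGroup H] [InnerProductSpace ℝ H] [CompleteSpace H]
  (T : ℝ → H →L[ℝ] H), IsSemigroup T → ∀ Q : H →L[ℝ] H, Q.IsPositive →
    ∀ (α : ℝ) (d : ℕ) (g y : Fin d → H), (∀ i, Gen T (g i) (y i)) →
    ∀ u : Matrix (Fin d) (Fin d) ℝ, u.PosDef →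
    ∀ (Ω : Type v) [mΩ : MeasurableSpace Ω] (P : Measure Ω) [IsProbabilityMeasure P]
      (ℱ : Filtration ℝ≥0 mΩ) (X : ℝ≥0 → Ω → H →L[ℝ] H) (τ : Ω → ℝ≥0),
      (∀ (m : ℕ) (h y : Fin m → H), (∀ k, Gen T (h k) (y k)) →
        Martingale (fun (t : ℝ≥0) ω => Real.exp (-quad (X (min t (τ ω)) ω) h)
          - ∫ s in (0 : ℝ)..((min t (τ ω) : ℝ≥0) : ℝ), drift α Q (X s.toNNReal ω) h y) ℱ P) →
      ∀ s ∈ Icc (0 : ℝ) 1, Martingale (fun (t : ℝ≥0) ω => av α T Q g u (X (min t (τ ω)) ω) s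
        - ∫ r in (0 : ℝ)..((min t (τ ω) : ℝ≥0) : ℝ), cv α T Q g y u (X r.toNNReal ω) s) ℱ P

/-- C10. The identity up to a stopping time. Proof (with `S_TD4`, `S_C5`, `S_C6`, `S_C7`, `S_C8`,
`S_C9`): `TDData` holds with `R = 1`, `a s t ω = av (X t.toNNReal ω) s`,
`c s t ω = cv (X t.toNNReal ω) s`, `C` from `S_C7` with `K = n`. (`τ` is measurable since
`{τ ≤ t}` is measurable for all `t`.) -/
def S_C10 : Prop := ∀ (H : Type u) [NormedAddCommGroup H] [InnerProductSpace ℝ H] [CompleteSpace H]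
  (T : ℝ → H →L[ℝ] H), IsSemigroup T → ∀ Q : H →L[ℝ] H, Q.IsPositive →
    ∀ (α : ℝ) (d : ℕ) (g y : Fin d → H), (∀ i, Gen T (g i) (y i)) →
    ∀ u : Matrix (Fin d) (Fin d) ℝ, u.PosDef →
    ∀ (Ω : Type v) [mΩ : MeasurableSpace Ω] (P : Measure Ω) [IsProbabilityMeasure P]
      (ℱ : Filtration ℝ≥0 mΩ) (X : ℝ≥0 → Ω → H →L[ℝ] H) (τ : Ω → ℝ≥0) (K : ℝ),
      (∀ t ω, (X t ω).IsPositive) → (∀ ω, Continuous fun t => X t ω) →
      (∀ t (g h : H), Measurable[ℱ t] fun ω => ⟪X t ω g, h⟫_ℝ) →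
      (∀ t, MeasurableSet[ℱ t] {ω | τ ω ≤ t}) →
      (∀ ω, 0 < τ ω → ∀ s ≤ τ ω, ‖X s ω‖ ≤ K) →
      (∀ (m : ℕ) (h y : Fin m → H), (∀ k, Gen T (h k) (y k)) →
        Martingale (fun (t : ℝ≥0) ω => Real.exp (-quad (X (min t (τ ω)) ω) h)
          - ∫ s in (0 : ℝ)..((min t (τ ω) : ℝ≥0) : ℝ), drift α Q (X s.toNNReal ω) h y) ℱ P) →
      ∫ ω, av α T Q g u (X (min 1 (τ ω)) ω) ((min 1 (τ ω) : ℝ≥0) : ℝ) ∂P
        = ∫ ω, av α T Q g u (X 0 ω) 0 ∂P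

/-- D. The Laplace transform identity. Proof (with `S_C7`, `S_C8`, `S_C10`): apply `S_C10` to
`τ n` for all `n` and let `n → ∞`: almost surely `1 ≤ τ n` for large `n`, so the left side tends to
`∫ av (X 1) 1` by dominated convergence (bound from `S_C7`, measurability from `S_C8`). At `s = 1`:
`gram 0 = 0`, `psi = u`, `fac = det (u⁻¹) ^ (-α/2)`, `T 0 = id`. At `s = 0`:
`psi = (u⁻¹ + 1)⁻¹`, `fac = det (u⁻¹ + 1) ^ (-α/2)`. Multiply by `det(u⁻¹) ^ (α/2)`;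
`det (u⁻¹ + 1) / det (u⁻¹) = det (1 + u)`. `tq ψ S g = tr (ψ M)` with `M = (⟨S gᵢ, gⱼ⟩)`, symmetric.
The matrices are positive semidefinite as `X` is positive. -/
def S_D : Prop := ∀ (H : Type u) [NormedAddCommGroup H] [InnerProductSpace ℝ H] [CompleteSpace H]
  (T : ℝ → H →L[ℝ] H), IsSemigroup T → ∀ Q : H →L[ℝ] H, Q.IsPositive → ∀ (α : ℝ)
    (Ω : Type v) [mΩ : MeasurableSpace Ω] (P : Measure Ω) [IsProbabilityMeasure P]
    (ℱ : Filtration ℝ≥0 mΩ) (X : ℝ≥0 → Ω → H →L[ℝ] H), Solution P ℱ T Q α X →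
    ∀ (d : ℕ) (g y : Fin d → H), (∀ i, Gen T (g i) (y i)) → gram T Q g 1 = 1 →
    WIdent P α (fun ω => Matrix.of fun i j => ⟪X 1 ω (g i), g j⟫_ℝ)
      (fun ω => Matrix.of fun i j => ⟪X 0 ω (T 1 (g i)), T 1 (g j)⟫_ℝ)

/-! ## Part E: the identity is impossible in large dimension -/

/-- E1. Proof: let `L` be the set of `i` with `eᵢ ≥ 1/4`, `m` its size. For `i ∉ L`,
`eᵢ (1/2 - eᵢ)² ≥ eᵢ / 16`, so the small ones sum to at most `16 δ`. `m ≤ 4 (a + δ)`. For `i ∈ L`,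
`eᵢ (1/2 - eᵢ)² ≥ (1/2 - eᵢ)² / 4`, so `∑_L (1/2 - eᵢ)² ≤ 4 δ` and by Cauchy-Schwarz
`|∑_L eᵢ - m / 2| ≤ √(4 δ m)`. So `|a - m / 2| ≤ 17 δ + √(16 δ (a + δ))`; for small `δ` this is less
than the distance of `a` to the set of half-integers `m / 2`, `m : ℕ`. -/
def S_E1 : Prop := ∀ a : ℝ, (∀ m : ℕ, 2 * a ≠ m) → ∃ δ : ℝ, 0 < δ ∧
  ∀ (d : ℕ) (e : Fin d → ℝ), (∀ i, 0 ≤ e i) → |∑ i, e i - a| ≤ δ →
    ∑ i, e i * (1 / 2 - e i) ^ 2 ≤ δ → False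

/-- E2. Proof: spectral theorem, `h = U diag(l) Uᴴ` (eigenvalues of a Hermitian matrix);
`det (1 + t h) = det (U (1 + t diag l) Uᴴ)`. -/
def S_E2 : Prop := ∀ (d : ℕ) (h : Matrix (Fin d) (Fin d) ℝ), h.IsHermitian →
  ∃ l : Fin d → ℝ, (h.PosSemidef → ∀ i, 0 ≤ l i) ∧ h.trace = ∑ i, l i ∧
    (h * h).trace = ∑ i, l i ^ 2 ∧ (h * h * h).trace = ∑ i, l i ^ 3 ∧
    ∀ t : ℝ, (1 + t • h).det = ∏ i, (1 + t * l i)

/-- E3. Convergence of moments from Laplace transforms near `0`. Proof: `x⁴ e^{|t x|} ≤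
C (e^{δ x} + e^{-δ x})` for `|t| ≤ δ/4`, so `∫ Y⁴ e^{|tY|} w` is bounded in `n` (eventually), and
`fₙ(t) = ∫ e^{-tY} w` satisfies `|fₙ(t) - ∑_{k ≤ 3} (-t)^k / k! mₖ(n)| ≤ C t⁴` for `|t| ≤ δ/4`,
`mₖ(n) = ∫ Y^k w`. Hence `m₁ = -(fₙ(t) - fₙ(-t)) / (2t) + O(t²)`,
`m₂ = (fₙ(t) + fₙ(-t) - 2 fₙ(0)) / t² + O(t²)`,
`m₃ = -(fₙ(2t) - 2 fₙ(t) + 2 fₙ(-t) - fₙ(-2t)) / (2 t³) + O(t)` uniformly in `n`; let `n → ∞`, then
`t → 0`. -/
def S_E3 : Prop := ∀ (Ω : Type v) [MeasurableSpace Ω] (P : Measure Ω) (w Y : ℕ → Ω → ℝ)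
  (f : ℝ → ℝ) (δ K a₀ a₁ a₂ a₃ : ℝ), 0 < δ → (∀ n, Measurable (w n)) → (∀ n, Measurable (Y n)) →
  (∀ n ω, 0 ≤ w n ω) →
  (∀ n, ∀ t, |t| ≤ δ → Integrable (fun ω => Real.exp (-(t * Y n ω)) * w n ω) P) →
  (∀ t, |t| ≤ δ → Tendsto (fun n => ∫ ω, Real.exp (-(t * Y n ω)) * w n ω ∂P) atTop (𝓝 (f t))) →
  (∀ t, |t| ≤ δ → |f t - (a₀ + a₁ * t + a₂ * t ^ 2 + a₃ * t ^ 3)| ≤ K * t ^ 4) →
  (∀ n, ∀ k ≤ 3, Integrable (fun ω => Y n ω ^ k * w n ω) P) ∧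
  Tendsto (fun n => ∫ ω, w n ω ∂P) atTop (𝓝 a₀) ∧
  Tendsto (fun n => ∫ ω, Y n ω * w n ω ∂P) atTop (𝓝 (-a₁)) ∧
  Tendsto (fun n => ∫ ω, Y n ω ^ 2 * w n ω ∂P) atTop (𝓝 (2 * a₂)) ∧
  Tendsto (fun n => ∫ ω, Y n ω ^ 3 * w n ω ∂P) atTop (𝓝 (-(6 * a₃)))

/-- E4. Taylor expansion. Proof: `log ∏ (1 + t lᵢ) = p₁ t - p₂ t²/2 + p₃ t³/3 + O(t⁴)`, multiply by
`-s` and expand the exponential to third order. (Or: the function is smooth near `0`; compute its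
derivatives up to order three at `0` from `F' = -s F ∑ lᵢ / (1 + t lᵢ)`.) -/
def S_E4 : Prop := ∀ (s : ℝ) (d : ℕ) (l : Fin d → ℝ), ∃ K δ : ℝ, 0 < δ ∧ ∀ t : ℝ, |t| ≤ δ →
  |(∏ i, (1 + t * l i)) ^ (-s) - (1 + (-(s * ∑ i, l i)) * t
    + ((s * (∑ i, l i ^ 2) + s ^ 2 * (∑ i, l i) ^ 2) / 2) * t ^ 2
    + (-((2 * s * (∑ i, l i ^ 3) + 3 * s ^ 2 * (∑ i, l i) * (∑ i, l i ^ 2)
        + s ^ 3 * (∑ i, l i) ^ 3) / 6)) * t ^ 3)| ≤ K * t ^ 4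

/-- E5p. `1 + t h` is positive definite for small `t`. Proof: `|xᵀ h x| ≤ C |x|²`. -/
def S_E5p : Prop := ∀ (d : ℕ) (h : Matrix (Fin d) (Fin d) ℝ), h.IsHermitian →
  ∃ δ : ℝ, 0 < δ ∧ ∀ t : ℝ, |t| ≤ δ → (1 + t • h).PosDef

/-- E5a. Limit of the Laplace transforms. Proof: for `n ≥ 1` use the identity at
`u = n (1 + t h)`: `tr (u M) = t n tr (h M) + n tr M`, and
`n^(dα/2) det (1 + n (1 + t h)) ^ (-α/2) = det (n⁻¹ + 1 + t h) ^ (-α/2) → det (1 + t h) ^ (-α/2)`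
(the determinant is continuous and positive); `(u⁻¹ + 1)⁻¹ → 1` entrywise since
`u⁻¹ = n⁻¹ (1 + t h)⁻¹ → 0`, and `0 ≤ tr ((u⁻¹ + 1)⁻¹ N)` (trace of a product of positive
semidefinite matrices), so the integral tends to `∫ exp (-tr N)` by dominated convergence. -/
def S_E5a : Prop := ∀ (Ω : Type v) [MeasurableSpace Ω] (P : Measure Ω) [IsProbabilityMeasure P]
  (α : ℝ) (d : ℕ) (M N : Ω → Matrix (Fin d) (Fin d) ℝ), WIdent P α M N →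
  ∀ (h : Matrix (Fin d) (Fin d) ℝ) (t : ℝ), (1 + t • h).PosDef →
    Tendsto (fun n : ℕ => ∫ ω, Real.exp (-(t * Yn h (M ω) n)) * wt α (M ω) n ∂P) atTop
      (𝓝 ((∫ ω, Real.exp (-(N ω).trace) ∂P) * (1 + t • h).det ^ (-(α / 2))))

/-- E5b. Integrability. Proof: `-(t Yn) - n tr M = -n tr ((1 + t h) M) ≤ 0` (trace of a product of
positive semidefinite matrices), so the integrand is bounded by `n^(dα/2)`. -/
def S_E5b : Prop := ∀ (Ω : Type v) [MeasurableSpace Ω] (P : Measure Ω) [IsProbabilityMeasure P]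
  (α : ℝ) (d : ℕ) (M N : Ω → Matrix (Fin d) (Fin d) ℝ), WIdent P α M N →
  ∀ (h : Matrix (Fin d) (Fin d) ℝ) (t : ℝ), (1 + t • h).PosDef →
    ∀ n : ℕ, Integrable (fun ω => Real.exp (-(t * Yn h (M ω) n)) * wt α (M ω) n) P

/-- E5. Moments up to order three. Proof: `S_E3` with `w n ω = wt α (M ω) n`,
`Y n ω = Yn h (M ω) n`, `f t = κ det (1 + t h) ^ (-α/2)`, from `S_E2`, `S_E4` (with `s = α/2`),
`S_E5p`, `S_E5a`, `S_E5b`. -/
def S_E5 : Prop := ∀ (Ω : Type v) [MeasurableSpace Ω] (P : Measure Ω) [IsProbabilityMeasure P]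
  (α : ℝ) (d : ℕ) (M N : Ω → Matrix (Fin d) (Fin d) ℝ), WIdent P α M N →
  ∀ h : Matrix (Fin d) (Fin d) ℝ, h.IsHermitian → ∀ s κ : ℝ, s = α / 2 →
    κ = ∫ ω, Real.exp (-(N ω).trace) ∂P →
    (∀ n, ∀ k ≤ 3, Integrable (fun ω => Yn h (M ω) n ^ k * wt α (M ω) n) P) ∧
    Tendsto (fun n => ∫ ω, wt α (M ω) n ∂P) atTop (𝓝 κ) ∧
    Tendsto (fun n => ∫ ω, Yn h (M ω) n * wt α (M ω) n ∂P) atTop (𝓝 (κ * (s * h.trace))) ∧
    Tendsto (fun n => ∫ ω, Yn h (M ω) n ^ 2 * wt α (M ω) n ∂P) atTop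
      (𝓝 (κ * (s * (h * h).trace + s ^ 2 * h.trace ^ 2))) ∧
    Tendsto (fun n => ∫ ω, Yn h (M ω) n ^ 3 * wt α (M ω) n ∂P) atTop
      (𝓝 (κ * (2 * s * (h * h * h).trace + 3 * s ^ 2 * h.trace * (h * h).trace
        + s ^ 3 * h.trace ^ 3)))

/-- E6. Polarization of the third moment. Proof (with `S_E5`): `Yn` is linear in `h`, and
`24 a b c = (a+b+c)³ - (a+b-c)³ - (a-b+c)³ - (-a+b+c)³`; apply `S_E5` to the four combinations and
expand the traces; for symmetric matrices `tr (h₁ h₂ h₃) = tr (h₃ h₂ h₁)` and the trace is cyclic. -/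
def S_E6 : Prop := ∀ (Ω : Type v) [MeasurableSpace Ω] (P : Measure Ω) [IsProbabilityMeasure P]
  (α : ℝ) (d : ℕ) (M N : Ω → Matrix (Fin d) (Fin d) ℝ), WIdent P α M N →
  ∀ h₁ h₂ h₃ : Matrix (Fin d) (Fin d) ℝ, h₁.IsHermitian → h₂.IsHermitian → h₃.IsHermitian →
    ∀ s κ : ℝ, s = α / 2 → κ = ∫ ω, Real.exp (-(N ω).trace) ∂P →
    (∀ n, Integrable (fun ω => Yn h₁ (M ω) n * Yn h₂ (M ω) n * Yn h₃ (M ω) n * wt α (M ω) n) P) ∧
    Tendsto (fun n => ∫ ω, Yn h₁ (M ω) n * Yn h₂ (M ω) n * Yn h₃ (M ω) n * wt α (M ω) n ∂P) atTop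
      (𝓝 (κ * (2 * s * (h₁ * h₂ * h₃).trace
        + s ^ 2 * (h₁.trace * (h₂ * h₃).trace + h₂.trace * (h₁ * h₃).trace
          + h₃.trace * (h₁ * h₂).trace)
        + s ^ 3 * (h₁.trace * h₂.trace * h₃.trace))))

/-- E7a. Sums of traces of the matrices `hᵢⱼ = (Eᵢⱼ + Eⱼᵢ)/2`. Proof: expand the products of the
`Matrix.single`; the eight terms of `8 ∑ tr (hᵢⱼ hⱼₖ hₖᵢ)` give `d³` once, `d²` three times and `d`
four times; `tr hᵢⱼ = δᵢⱼ`; `tr (hᵢⱼ hₖₗ) = (δᵢₖ δⱼₗ + δᵢₗ δⱼₖ)/2`. Last part: `tr (hᵢⱼ M) = Mᵢⱼ` for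
symmetric `M`. -/
def S_E7a : Prop := ∀ d : ℕ,
  (∀ i j : Fin d, (hij i j).IsHermitian) ∧
  (∑ i : Fin d, ∑ j, ∑ k, (hij i j * hij j k * hij k i).trace
    = ((d : ℝ) ^ 3 + 3 * d ^ 2 + 4 * d) / 8) ∧
  (∑ i : Fin d, ∑ j, ∑ k, ((hij i j).trace * (hij j k * hij k i).trace
    + (hij j k).trace * (hij i j * hij k i).trace + (hij k i).trace * (hij i j * hij j k).trace)
    = 3 * ((d : ℝ) ^ 2 + d) / 2) ∧
  (∑ i : Fin d, ∑ j, ∑ k, (hij i j).trace * (hij j k).trace * (hij k i).trace = (d : ℝ)) ∧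
  (∑ i : Fin d, ∑ j, (hij i j * hij i j).trace = ((d : ℝ) ^ 2 + d) / 2) ∧
  (∑ i : Fin d, ∑ j, (hij i j).trace ^ 2 = (d : ℝ)) ∧
  (∀ (M : Matrix (Fin d) (Fin d) ℝ), M.IsHermitian → ∀ i j, (hij i j * M).trace = M i j)

/-- E7b. Limit of the expectation of `F_n`. Proof (with `S_E5`, `S_E6`, `S_E7a`): for symmetric `M`,
`n³ tr (M³) = ∑ Yn hᵢⱼ Yn hⱼₖ Yn hₖᵢ`, so its integral tends to
`κ (s (d³ + 3 d² + 4 d)/4 + 3 s² d (d+1)/2 + s³ d)`; `n² tr (M²) = ∑ Yn hᵢⱼ²`, limit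
`κ (s (d² + d)/2 + s² d)`; `n tr M = Yn 1`, with `(Yn 1)`, `(Yn 1)²` having limits `κ s d`,
`κ (s d + s² d²)`; the weight has limit `κ`. Linear combination as in `Fn`:
`(s/d) + s/4 - (s (1 + 1/d)/2 + s²/d) + (s/4 + 3s/(4d) + s/d² + 3 s² (1 + 1/d)/(2d) + s³/d²)`
(the constant terms cancel). -/
def S_E7b : Prop := ∀ (Ω : Type v) [MeasurableSpace Ω] (P : Measure Ω) [IsProbabilityMeasure P]
  (α : ℝ) (d : ℕ) (M N : Ω → Matrix (Fin d) (Fin d) ℝ), 0 < d → WIdent P α M N →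
  ∀ s κ : ℝ, s = α / 2 → κ = ∫ ω, Real.exp (-(N ω).trace) ∂P →
    (∀ n, Integrable (fun ω => Fn s (M ω) n * wt α (M ω) n) P) ∧
    (∀ n, Integrable (fun ω => wt α (M ω) n) P) ∧
    Tendsto (fun n => ∫ ω, wt α (M ω) n ∂P) atTop (𝓝 κ) ∧
    Tendsto (fun n => ∫ ω, Fn s (M ω) n * wt α (M ω) n ∂P) atTop
      (𝓝 (κ * ((5 * s / 4 + s ^ 2 / 2) / d + (s + 3 * s ^ 2 / 2 + s ^ 3) / d ^ 2)))

/-- E8. Proof (with `S_E1` at `a = α/2`, `S_E2`, `S_E7b`): let `δ` be as in `S_E1`, `η = min δ δ²`.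
For `n` and `ω` let `e` be the eigenvalues of `W = n M / d` (positive semidefinite): then
`F_n = (∑ e - s)² + ∑ e (1/2 - e)² ≥ η` (otherwise both `|∑ e - s| ≤ δ` and the second sum `≤ δ`,
against `S_E1`; each summand is `≥ 0`). So `∫ F_n w ≥ η ∫ w`, in the limit
`κ ε(d) ≥ η κ`, with `κ > 0`; but `ε(d) → 0` as `d → ∞`. -/
def S_E8 : Prop := ∀ α : ℝ, (∀ m : ℕ, α ≠ m) → ∃ d₀ : ℕ, ∀ d ≥ d₀,
  ∀ (Ω : Type v) [MeasurableSpace Ω] (P : Measure Ω) [IsProbabilityMeasure P]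
    (M N : Ω → Matrix (Fin d) (Fin d) ℝ), ¬ WIdent P α M N

/-- F. The theorem. Proof (with `S_A2`, `S_A3`, `S_A4`, `S_D`, `S_E8`): take `d = d₀`, independent
`g` in the domain of the generator, normalize, and apply `S_D` and `S_E8`. -/
def S_F : Prop := ∀ (H : Type u) [NormedAddCommGroup H] [InnerProductSpace ℝ H] [CompleteSpace H]
  (T : ℝ → H →L[ℝ] H), IsSemigroup T → ∀ Q : H →L[ℝ] H, Q.IsPositive → Function.Injective Q →
    (¬ FiniteDimensional ℝ H ∨ ∃ g : H, ∀ y, ¬ Gen T g y) → ∀ α : ℝ, (∀ m : ℕ, α ≠ m) →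
    ∀ (Ω : Type v) [mΩ : MeasurableSpace Ω] (P : Measure Ω) [IsProbabilityMeasure P]
      (ℱ : Filtration ℝ≥0 mΩ) (X : ℝ≥0 → Ω → H →L[ℝ] H), ¬ Solution P ℱ T Q α X

end Pool.Agent.Q78.WI
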